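import Pool.Agent.H89.NV.TU2

/-!
# Homothetic lattices: the local numbers
-/

set_option autoImplicit false

open MeasureTheory Set Filter NumberField NumberField.InfinitePlace
open scoped Real

namespace Pool.Agent.H74.NVK

open Pool.Agent.H65.CM4 Pool.Agent.H61.NVK Pool.Agent.H89.NV

theorem mulLeft_comp {k K : Type} [Field k] [NumberField k] [Field K] [Algebra k K] (x y : K) :
    (LinearMap.mulLeft (𝓞 k) x).comp (LinearMap.mulLeft (𝓞 k) y) =
      LinearMap.mulLeft (𝓞 k) (x * y) := by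
  ext z
  simp

theorem mulLeft_one {k K : Type} [Field k] [NumberField k] [Field K] [Algebra k K] :
    LinearMap.mulLeft (𝓞 k) (1 : K) = LinearMap.id := by
  ext z
  simp

/-- multiplication by `g` on the submodules -/
noncomputable def mE {k K : Type} [Field k] [NumberField k] [Field K] [Algebra k K] {g : K}
    (hg : g ≠ 0) : Submodule (𝓞 k) K ≃ Submodule (𝓞 k) K where
  toFun L := L.map (LinearMap.mulLeft (𝓞 k) g)
  invFun L := L.map (LinearMap.mulLeft (𝓞 k) g⁻¹)
  left_inv L := by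
    show (L.map (LinearMap.mulLeft (𝓞 k) g)).map (LinearMap.mulLeft (𝓞 k) g⁻¹) = L
    rw [← Submodule.map_comp, mulLeft_comp, inv_mul_cancel₀ hg, mulLeft_one, Submodule.map_id]
  right_inv L := by
    show (L.map (LinearMap.mulLeft (𝓞 k) g⁻¹)).map (LinearMap.mulLeft (𝓞 k) g) = L
    rw [← Submodule.map_comp, mulLeft_comp, mul_inv_cancel₀ hg, mulLeft_one, Submodule.map_id]

variable (k : Type) [Field k] [NumberField k] [IsTotallyReal k]

theorem pf_NUV (_hRSB : T_RSB k) (_hIDL : T_IDL k) (_hCKB : T_CKB k) (_hLMB : T_LMB k)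
    (hSTB : T_STB k) (hNU1 : T_NU1 k) : T_NUV k := by
  intro D hD K _ _ h f a a' A A' b b' g hf ha ha' hA hA' hg hhom P u u' hu hu' hz
  have hb0 : Fm f D ⊤ b := ⟨top_ne_bot, hA.mem,
    Ideal.mul_mono le_rfl (Ideal.mul_mono le_top le_rfl) hA.dis⟩
  rw [hNU1 D hD K h f a A b b P u hf ha hA hb0 hu,
    hNU1 D hD K h f a' A' b' b P u' hf ha' hA' hb0 hu']
  have hM : hom a' 1 (Lam h f A' b') =
      (hom a 1 (Lam h f A b)).map (LinearMap.mulLeft (𝓞 k) g) := by
    rw [← hhom]
    unfold hom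
    rw [Submodule.map_smul'', ← Submodule.map_comp, mulLeft_comp, mul_one]
  have hinj : Function.Injective (LinearMap.mulLeft (𝓞 k) g) := by
    intro x y hxy
    exact mul_left_cancel₀ hg hxy
  have hst : ∀ L : Submodule (𝓞 k) K,
      Stb h f b L ↔ Stb h f b (L.map (LinearMap.mulLeft (𝓞 k) g)) := by
    intro L
    obtain ⟨h1, h2⟩ := (hSTB D hD K h f b hf hb0).2 L ⊤ g
    have h3 : hom ⊤ g L = L.map (LinearMap.mulLeft (𝓞 k) g) := by
      unfold hom
      rw [Submodule.top_smul]
    rw [h3] at h1 h2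
    exact ⟨h1, h2 top_ne_bot hg⟩
  rw [hM, ← hz]
  refine Nat.card_congr ((mE hg).subtypeEquiv ?_)
  intro L
  have e0 : mE hg L = L.map (LinearMap.mulLeft (𝓞 k) g) := rfl
  rw [e0, ← Submodule.map_smul'', Submodule.map_le_map_iff_of_injective hinj,
    Submodule.map_le_map_iff_of_injective hinj, ← hst,
    (Submodule.map_injective_of_injective hinj).ne_iff,
    (Submodule.map_injective_of_injective hinj).ne_iff]
  have e1 : g * zz h b u ∈ L.map (LinearMap.mulLeft (𝓞 k) g) ↔ zz h b u ∈ L := by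
    rw [Submodule.mem_map]
    constructor
    · rintro ⟨y, hy, he⟩
      have : y = zz h b u := hinj he
      rwa [← this]
    · intro hy
      exact ⟨_, hy, rfl⟩
  rw [e1]

end Pool.Agent.H74.NVK
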