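import Pool.Agent.H89.NV.TU2

/-!
# The Hecke operators preserve invariance and bounds
-/

set_option autoImplicit false

open MeasureTheory Set Filter NumberField NumberField.InfinitePlace
open scoped Real

namespace Pool.Agent.H74.NVK

open Pool.Agent.H65.CM4 Pool.Agent.H61.NVK Pool.Agent.H89.NV

section

variable {k : Type} [Field k] [NumberField k]

theorem bs_fm {f A : Ideal (𝓞 k)} {D b : 𝓞 k} (h : b ∈ bs f A D) (hA : A ≠ ⊥) :
    Fm f D A b := by
  classical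
  unfold bs at h
  have h1 := Finset.mem_filter.1 h
  exact ⟨hA, h1.2.1, h1.2.2⟩

theorem dvi_bot {P : Ideal (𝓞 k)} (hP : P ≠ ⊥) : dvi ⊥ P = ⊥ := by
  unfold dvi
  split_ifs with h
  · have h1 := h.choose_spec
    rcases Ideal.mul_eq_bot.1 h1.symm with h2 | h2
    · exact absurd h2 hP
    · exact h2
  · rfl

variable [IsTotallyReal k]

theorem sum_inv (hTRV : T_TRV k) {f A P : Ideal (𝓞 k)} {D b j0 : 𝓞 k} (hf : f ≠ ⊥)
    (hP : P ≠ ⊥) (hA : Fm f D A b) (hj : j0 ∈ A * f) (G : 𝓞 k → 𝓞 k → ℝ)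
    (hG : ∀ b, Fm f D (P * A) b → ∀ y ∈ P * A * f,
      G (b + 2 * y) (q4 ((b + 2 * y) ^ 2 + D)) = G b (q4 (b ^ 2 + D))) :
    ∑ i ∈ rts f P A (b + 2 * j0) (q4 ((b + 2 * j0) ^ 2 + D)),
      G (b + 2 * j0 + 2 * i) (i ^ 2 + (b + 2 * j0) * i + q4 ((b + 2 * j0) ^ 2 + D)) =
    ∑ i ∈ rts f P A b (q4 (b ^ 2 + D)), G (b + 2 * i) (i ^ 2 + b * i + q4 (b ^ 2 + D)) := by
  classical
  obtain ⟨-, -, -, h4, h5, -⟩ := hTRV f A D b hf hA
  obtain ⟨hA', -, hsum⟩ := h4 j0 hj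
  obtain ⟨-, -, -, -, h5', -⟩ := hTRV f A D (b + 2 * j0) hf hA'
  obtain ⟨g, hg⟩ : ∃ g : 𝓞 k → ℝ, ∀ x, g x = if Fm f D (P * A) (b + 2 * j0 + 2 * x) then
      G (b + 2 * j0 + 2 * x) (q4 ((b + 2 * j0 + 2 * x) ^ 2 + D)) else 0 :=
    ⟨fun x => if Fm f D (P * A) (b + 2 * j0 + 2 * x) then
      G (b + 2 * j0 + 2 * x) (q4 ((b + 2 * j0 + 2 * x) ^ 2 + D)) else 0, fun _ => rfl⟩
  have hper : ∀ x, ∀ y ∈ P * (A * f), g (x + y) = g x := by
    intro x y hy
    have hy' : y ∈ P * A * f := by rwa [mul_assoc]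
    have e : b + 2 * j0 + 2 * (x + y) = b + 2 * j0 + 2 * x + 2 * y := by ring
    rw [hg, hg, e]
    by_cases hF : Fm f D (P * A) (b + 2 * j0 + 2 * x)
    · have h1 := ((hTRV f (P * A) D _ hf hF).2.2.2.1 y hy').1
      rw [if_pos h1, if_pos hF]
      exact hG _ hF y hy'
    · have h2 : ¬ Fm f D (P * A) (b + 2 * j0 + 2 * x + 2 * y) := by
        intro h3
        have h4 := ((hTRV f (P * A) D _ hf h3).2.2.2.1 (-y) (neg_mem hy')).1
        have e2 : b + 2 * j0 + 2 * x + 2 * y + 2 * (-y) = b + 2 * j0 + 2 * x := by ring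
        rw [e2] at h4
        exact hF h4
      rw [if_neg h2, if_neg hF]
  have h := hsum P g hP hper
  have e1 : ∑ i ∈ rts f P A (b + 2 * j0) (q4 ((b + 2 * j0) ^ 2 + D)),
      G (b + 2 * j0 + 2 * i) (i ^ 2 + (b + 2 * j0) * i + q4 ((b + 2 * j0) ^ 2 + D)) =
      ∑ i ∈ rts f P A (b + 2 * j0) (q4 ((b + 2 * j0) ^ 2 + D)), g i := by
    apply Finset.sum_congr rfl
    intro i hi
    obtain ⟨h1, h2⟩ := h5' P i hP hi
    rw [hg, if_pos h1, h2]
  have e2 : ∑ i ∈ rts f P A b (q4 (b ^ 2 + D)), g (i - j0) =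
      ∑ i ∈ rts f P A b (q4 (b ^ 2 + D)), G (b + 2 * i) (i ^ 2 + b * i + q4 (b ^ 2 + D)) := by
    apply Finset.sum_congr rfl
    intro i hi
    obtain ⟨h1, h2⟩ := h5 P i hP hi
    have e3 : b + 2 * j0 + 2 * (i - j0) = b + 2 * i := by ring
    rw [hg, e3, if_pos h1, h2]
  rw [e1, h, e2]

theorem US_summable (hRSB : T_RSB k) (hIDL : T_IDL k) (hSMM : T_SMM k) {f : Ideal (𝓞 k)}
    {D : 𝓞 k} {ω : WW k} {F : FF k} (hf : f ≠ ⊥) (hω : WI f D ω) (hF : FI f D F) :
    Summable fun p : Ideal (𝓞 k) × Ideal (𝓞 k) => ∑ b ∈ bs f p.2 D,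
      ω p.1 p.2 b (q4 (b ^ 2 + D)) * F p.2 b (q4 (b ^ 2 + D)) := by
  obtain ⟨hS, C₀, hC₀, hS2⟩ := hSMM
  obtain ⟨C₁, j, hC₁, hF1⟩ := hF.bd
  obtain ⟨-, -, -, -, hnm1, -⟩ := hIDL
  refine hS _ (j + 1) ?_ ?_
  · rintro e A (rfl | rfl)
    · show ∑ b ∈ bs f A D, ω ⊥ A b (q4 (b ^ 2 + D)) * F A b (q4 (b ^ 2 + D)) = 0
      apply Finset.sum_eq_zero
      intro b _
      rw [hω.zero, zero_mul]
    · show ∑ b ∈ bs f ⊥ D, ω e ⊥ b (q4 (b ^ 2 + D)) * F ⊥ b (q4 (b ^ 2 + D)) = 0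
      have : bs f (⊥ : Ideal (𝓞 k)) D = ∅ := by
        have h0 : ni k 2 * ((⊥ : Ideal (𝓞 k)) * f) = ⊥ := by
          rw [Ideal.bot_mul, Ideal.mul_bot]
        unfold bs
        rw [h0, hRSB.2.1, Finset.filter_empty]
      rw [this, Finset.sum_empty]
  · intro B
    obtain ⟨C₂, hC₂, hω1⟩ := hω.bd B
    refine ⟨C₀ * nm f * (C₂ * C₁), ?_⟩
    intro e A he hA
    show |∑ b ∈ bs f A D, ω e A b (q4 (b ^ 2 + D)) * F A b (q4 (b ^ 2 + D))| ≤ _
    have hA0 : 0 ≤ nm A := zero_le_one.trans (hnm1 A hA)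
    have heA : 0 ≤ nm (e ^ 2 * A) := by
      unfold nm
      positivity
    refine (Finset.abs_sum_le_sum_abs _ _).trans ?_
    have h1 : ∀ b ∈ bs f A D, |ω e A b (q4 (b ^ 2 + D)) * F A b (q4 (b ^ 2 + D))| ≤
        C₂ / nm (e ^ 2 * A) ^ B * (C₁ * nm A ^ j) := by
      intro b hb
      have hFm := bs_fm hb hA
      rw [abs_mul]
      exact mul_le_mul (hω1 e A b he hFm) (hF1 A b hFm) (abs_nonneg _) (by positivity)
    refine (Finset.sum_le_card_nsmul _ _ _ h1).trans ?_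
    rw [nsmul_eq_mul]
    have h2 := (hS2 f A D hf).1
    calc ((bs f A D).card : ℝ) * (C₂ / nm (e ^ 2 * A) ^ B * (C₁ * nm A ^ j)) ≤
        (C₀ * nm A * nm f) * (C₂ / nm (e ^ 2 * A) ^ B * (C₁ * nm A ^ j)) := by gcongr
      _ = _ := by ring

end

variable (k : Type) [Field k] [NumberField k] [IsTotallyReal k]

theorem pf_TPB (hRSB : T_RSB k) (hIDL : T_IDL k) (hTRV : T_TRV k) (hSMM : T_SMM k) :
    T_TPB k := by
  classical
  intro f D P hf
  have hP : P.1 ≠ ⊥ := P.2.2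
  have hIDL' := hIDL
  obtain ⟨-, hdvi, -, hnmm, hnm1, -⟩ := hIDL
  obtain ⟨C₀, hC₀, hS2⟩ := hSMM.2
  have hnP : 1 ≤ nm P.1 := hnm1 P.1 hP
  have hnP0 : 0 < nm P.1 := by linarith
  have hcard : ∀ (A : Ideal (𝓞 k)) (b c : 𝓞 k), A ≠ ⊥ → ((rts f P.1 A b c).card : ℝ) ≤ nm P.1 :=
    fun A b c hA => (hS2 f A D hf).2 P.1 b c hP hA
  have hlei : ∀ (A : Ideal (𝓞 k)), A ≠ ⊥ → P.1 ∣ A → A * f ≤ dvi A P.1 * f := by
    intro A hA hPA
    have h1 := (hdvi A P.1 hA hPA).1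
    refine Ideal.mul_mono ?_ le_rfl
    calc A = P.1 * dvi A P.1 := h1.symm
      _ ≤ _ := (Ideal.mul_le_inf).trans inf_le_right
  refine ⟨?_, ?_, ?_, ?_⟩
  · intro F hF
    refine ⟨?_, ?_⟩
    · intro A b hA j hj
      show (if P.1 ∣ A then F (dvi A P.1) (b + 2 * j) (q4 ((b + 2 * j) ^ 2 + D)) else 0) +
        ∑ i ∈ rts f P.1 A (b + 2 * j) (q4 ((b + 2 * j) ^ 2 + D)),
          F (P.1 * A) (b + 2 * j + 2 * i)
            (i ^ 2 + (b + 2 * j) * i + q4 ((b + 2 * j) ^ 2 + D)) =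
        (if P.1 ∣ A then F (dvi A P.1) b (q4 (b ^ 2 + D)) else 0) +
        ∑ i ∈ rts f P.1 A b (q4 (b ^ 2 + D)),
          F (P.1 * A) (b + 2 * i) (i ^ 2 + b * i + q4 (b ^ 2 + D))
      rw [sum_inv hTRV hf hP hA hj (fun b c => F (P.1 * A) b c)
        (fun b hb y hy => hF.inv (P.1 * A) b hb y hy)]
      congr 1
      split_ifs with hPA
      · exact hF.inv _ b ((hTRV f A D b hf hA).2.2.2.2.2 P.1 hPA) j (hlei A hA.ne hPA hj)
      · rfl
    · obtain ⟨C, j, hC, hb⟩ := hF.bd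
      refine ⟨C + nm P.1 * (C * nm P.1 ^ j), j, by positivity, ?_⟩
      intro A b hA
      have hA1 := hnm1 A hA.ne
      have h1 : |if P.1 ∣ A then F (dvi A P.1) b (q4 (b ^ 2 + D)) else 0| ≤ C * nm A ^ j := by
        split_ifs with hPA
        · obtain ⟨h2, h3, h4⟩ := hdvi A P.1 hA.ne hPA
          refine (hb _ b ((hTRV f A D b hf hA).2.2.2.2.2 P.1 hPA)).trans ?_
          have h5 := hnm1 _ h3
          have h6 : nm (dvi A P.1) ≤ nm A := by
            rw [h4]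
            nlinarith
          gcongr
        · rw [abs_zero]
          positivity
      have h2 : |∑ i ∈ rts f P.1 A b (q4 (b ^ 2 + D)),
          F (P.1 * A) (b + 2 * i) (i ^ 2 + b * i + q4 (b ^ 2 + D))| ≤
          nm P.1 * (C * nm P.1 ^ j) * nm A ^ j := by
        refine (Finset.abs_sum_le_sum_abs _ _).trans ?_
        have h3 : ∀ i ∈ rts f P.1 A b (q4 (b ^ 2 + D)),
            |F (P.1 * A) (b + 2 * i) (i ^ 2 + b * i + q4 (b ^ 2 + D))| ≤
              C * (nm P.1 * nm A) ^ j := by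
          intro i hi
          obtain ⟨h4, h5⟩ := (hTRV f A D b hf hA).2.2.2.2.1 P.1 i hP hi
          rw [← h5, ← hnmm]
          exact hb _ _ h4
        refine (Finset.sum_le_card_nsmul _ _ _ h3).trans ?_
        rw [nsmul_eq_mul]
        calc ((rts f P.1 A b (q4 (b ^ 2 + D))).card : ℝ) * (C * (nm P.1 * nm A) ^ j) ≤
            nm P.1 * (C * (nm P.1 * nm A) ^ j) := by
              gcongr
              exact hcard A b _ hA.ne
          _ = _ := by
              rw [mul_pow]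
              ring
      calc |Tp f P.1 F A b (q4 (b ^ 2 + D))| ≤
          |if P.1 ∣ A then F (dvi A P.1) b (q4 (b ^ 2 + D)) else 0| +
            |∑ i ∈ rts f P.1 A b (q4 (b ^ 2 + D)),
              F (P.1 * A) (b + 2 * i) (i ^ 2 + b * i + q4 (b ^ 2 + D))| := abs_add_le _ _
        _ ≤ C * nm A ^ j + nm P.1 * (C * nm P.1 ^ j) * nm A ^ j := add_le_add h1 h2
        _ = _ := by ring
  · intro ω hω
    refine ⟨?_, ?_, ?_⟩
    · intro A b c
      show (if P.1 ∣ A then ω ⊥ (dvi A P.1) b c else 0) +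
        (if P.1 ∣ ⊥ then ∑ j ∈ rts f P.1 A b c,
          ω (dvi ⊥ P.1) (P.1 * A) (b + 2 * j) (j ^ 2 + b * j + c) else 0) = 0
      rw [dvi_bot hP]
      simp only [hω.zero, Finset.sum_const_zero, ite_self, add_zero]
    · intro e A b he hA j hj
      show (if P.1 ∣ A then ω e (dvi A P.1) (b + 2 * j) (q4 ((b + 2 * j) ^ 2 + D)) else 0) +
        (if P.1 ∣ e then ∑ i ∈ rts f P.1 A (b + 2 * j) (q4 ((b + 2 * j) ^ 2 + D)),
          ω (dvi e P.1) (P.1 * A) (b + 2 * j + 2 * i)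
            (i ^ 2 + (b + 2 * j) * i + q4 ((b + 2 * j) ^ 2 + D)) else 0) =
        (if P.1 ∣ A then ω e (dvi A P.1) b (q4 (b ^ 2 + D)) else 0) +
        (if P.1 ∣ e then ∑ i ∈ rts f P.1 A b (q4 (b ^ 2 + D)),
          ω (dvi e P.1) (P.1 * A) (b + 2 * i) (i ^ 2 + b * i + q4 (b ^ 2 + D)) else 0)
      congr 1
      · split_ifs with hPA
        · exact hω.inv e _ b he ((hTRV f A D b hf hA).2.2.2.2.2 P.1 hPA) j (hlei A hA.ne hPA hj)
        · rfl
      · split_ifs with hPe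
        · have h1 := (hdvi e P.1 he hPe).2.1
          exact sum_inv hTRV hf hP hA hj (fun b c => ω (dvi e P.1) (P.1 * A) b c)
            (fun b hb y hy => hω.inv (dvi e P.1) (P.1 * A) b h1 hb y hy)
        · rfl
    · intro B
      obtain ⟨C, hC, hb⟩ := hω.bd B
      refine ⟨C * nm P.1 ^ B + nm P.1 * (C * nm P.1 ^ B), by positivity, ?_⟩
      intro e A b he hA
      have hA1 := hnm1 A hA.ne
      have he1 := hnm1 e he
      have heA : nm (e ^ 2 * A) = nm e ^ 2 * nm A := by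
        rw [hnmm, pow_two, hnmm, pow_two]
      have heA0 : 0 < nm (e ^ 2 * A) := by
        rw [heA]
        positivity
      have h1 : |if P.1 ∣ A then ω e (dvi A P.1) b (q4 (b ^ 2 + D)) else 0| ≤
          C * nm P.1 ^ B / nm (e ^ 2 * A) ^ B := by
        split_ifs with hPA
        · obtain ⟨h2, h3, h4⟩ := hdvi A P.1 hA.ne hPA
          refine (hb e _ b he ((hTRV f A D b hf hA).2.2.2.2.2 P.1 hPA)).trans ?_
          have h5 := hnm1 _ h3
          have h6 : nm (e ^ 2 * dvi A P.1) = nm e ^ 2 * nm (dvi A P.1) := by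
            rw [hnmm, pow_two, hnmm, pow_two]
          rw [heA, h6, h4]
          apply le_of_eq
          have h7 : nm (dvi A P.1) ≠ 0 := by linarith
          have h8 : nm e ≠ 0 := by linarith
          simp only [mul_pow]
          field_simp
        · rw [abs_zero]
          positivity
      have h2 : |if P.1 ∣ e then ∑ i ∈ rts f P.1 A b (q4 (b ^ 2 + D)),
          ω (dvi e P.1) (P.1 * A) (b + 2 * i) (i ^ 2 + b * i + q4 (b ^ 2 + D)) else 0| ≤
          nm P.1 * (C * nm P.1 ^ B) / nm (e ^ 2 * A) ^ B := by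
        split_ifs with hPe
        · obtain ⟨g2, g3, g4⟩ := hdvi e P.1 he hPe
          have g5 := hnm1 _ g3
          refine (Finset.abs_sum_le_sum_abs _ _).trans ?_
          have h3 : ∀ i ∈ rts f P.1 A b (q4 (b ^ 2 + D)),
              |ω (dvi e P.1) (P.1 * A) (b + 2 * i) (i ^ 2 + b * i + q4 (b ^ 2 + D))| ≤
                C * nm P.1 ^ B / nm (e ^ 2 * A) ^ B := by
            intro i hi
            obtain ⟨h4, h5⟩ := (hTRV f A D b hf hA).2.2.2.2.1 P.1 i hP hi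
            rw [← h5]
            refine (hb _ _ _ g3 h4).trans ?_
            have h6 : nm (dvi e P.1 ^ 2 * (P.1 * A)) =
                nm (dvi e P.1) ^ 2 * (nm P.1 * nm A) := by
              rw [hnmm, pow_two, hnmm, hnmm, pow_two]
            rw [heA, h6, g4]
            apply le_of_eq
            have h7 : nm (dvi e P.1) ≠ 0 := by linarith
            have h8 : nm A ≠ 0 := by linarith
            simp only [mul_pow]
            field_simp
            rw [← pow_mul, ← pow_mul, mul_comm 2 B]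
          refine (Finset.sum_le_card_nsmul _ _ _ h3).trans ?_
          rw [nsmul_eq_mul]
          calc ((rts f P.1 A b (q4 (b ^ 2 + D))).card : ℝ) *
                (C * nm P.1 ^ B / nm (e ^ 2 * A) ^ B) ≤
              nm P.1 * (C * nm P.1 ^ B / nm (e ^ 2 * A) ^ B) := by
                gcongr
                exact hcard A b _ hA.ne
            _ = _ := by ring
        · rw [abs_zero]
          positivity
      calc |Wp f P.1 ω e A b (q4 (b ^ 2 + D))| ≤
          |if P.1 ∣ A then ω e (dvi A P.1) b (q4 (b ^ 2 + D)) else 0| +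
            |if P.1 ∣ e then ∑ i ∈ rts f P.1 A b (q4 (b ^ 2 + D)),
              ω (dvi e P.1) (P.1 * A) (b + 2 * i) (i ^ 2 + b * i + q4 (b ^ 2 + D)) else 0| :=
            abs_add_le _ _
        _ ≤ C * nm P.1 ^ B / nm (e ^ 2 * A) ^ B +
            nm P.1 * (C * nm P.1 ^ B) / nm (e ^ 2 * A) ^ B := add_le_add h1 h2
        _ = _ := by ring
  · intro ω ω' F hω hω' hF
    have s1 := US_summable hRSB hIDL' hSMM hf hω hF
    have s2 := US_summable hRSB hIDL' hSMM hf hω' hF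
    unfold US
    rw [← s1.tsum_add s2]
    refine tsum_congr fun p => ?_
    rw [← Finset.sum_add_distrib]
    exact Finset.sum_congr rfl fun b _ => by ring
  · intro ω F F' hω hF hF'
    have s1 := US_summable hRSB hIDL' hSMM hf hω hF
    have s2 := US_summable hRSB hIDL' hSMM hf hω hF'
    unfold US
    rw [← s1.tsum_add s2]
    refine tsum_congr fun p => ?_
    rw [← Finset.sum_add_distrib]
    exact Finset.sum_congr rfl fun b _ => by ring

end Pool.Agent.H74.NVK
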